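import Mathlib
import Pool.Agent.Work.MP_541980_co.Proof

set_option autoImplicit false

namespace Pool.Agent.Results.MP_541980_co.EvilKernel

open Pool.Agent.Work.MP_541980_co

/-- Negative answer to Q1: there are an evilly normal pair `(A, K)` and a game in `K`, namely
`G = {0, * | {0, * | 0}}`, that is invertible modulo the dicotic games. Here `A` and `K` do not
distinguish identical forms. -/
theorem result : ∃ A K : Set Game,
    RespectsIdentity A ∧ RespectsIdentity K ∧ EvillyNormal A K ∧
    gameG ∈ K ∧ InvertibleModDicots gameG :=
  ⟨setA, setK, respects_A, respects_K, evillyNormal_AK, ⟨⟨1, 0, 0⟩, rep_gameG, le_refl 1⟩,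
    invertible_G⟩

end Pool.Agent.Results.MP_541980_co.EvilKernel
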